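import Pool.Agent.V11273.PV.G6

/-!
# The period conjecture in bounded degree and height for almost all fibres of all families of varieties

A family (`Family X ι`) is an algebraic connection `c ∂_i Y = Y B_i` over the affine space with coordinates `x_i`, `i ∈ X`,
(`c` a nonzero polynomial, `B_i` matrices of polynomials with complex coefficients) with an invertible matrix `Y` of
analytic solutions on a nonempty connected open set `U`. For example `Y` is the period matrix (rows: locally constant
basis of Betti cohomology, columns: algebraic basis of the relative de Rham cohomology) of the fibres of any family of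
algebraic varieties, of any kind, over an open part of the affine space; `c ∂_i Y = Y B_i` is its Gauss-Manin connection.
There is no condition on the monodromy. (A family over another base `S` is covered as well: an open part of `S` is finite
étale over an open part of an affine space `A`, and the composition of the family with this map is a family over an open
part of `A`, the fibre of which over `s` is the disjoint union of the fibres over the points of `S` over `s`.)

`galois` is the group of the invertible constant matrices `g` such that all polynomial relations over `ℂ[x]` between the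
entries of `Y` are relations between the entries of `g Y`. By the theory of Picard and Vessiot it is the differential
Galois group, and by Schlesinger it is the Zariski closure of the monodromy group if the connection is regular singular,
as it is for Gauss-Manin connections. `identityComponent` is the intersection of its closed subgroups of finite index; it
is the algebraic monodromy group after a finite covering of the base. The motivic torsor of a general fibre `X_s` contains
the orbit of `Y(s)` under this group, and coincides with it, up to the Tate twist, for families with big monodromy.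

The theorem treats several families at once: the products of the fibres at `s_1, …, s_k` of given families.

What is new with respect to the library (`Pool.Agent.Y890.MV.excM_cov`, which assumes that `ℂ(x)` is algebraically closed
in the field generated by the functions, and its applications `SymplecticMonodromy`, `EvenDimensionalFamilies`, which
verify this by special properties of the symplectic and orthogonal groups): all groups. The proof contains:
(1) the torsor property, for analytic solutions over bases of any dimension (`V11273.PV.torsor`): if `Z` is an invertible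
zero, over a point `x₀` with `c(x₀) ≠ 0`, of the relations between the entries of `Y`, then `Z = g Y(x₀)` with `g` in the
Galois group (the ideal of relations is stable under the derivations, so that all derivatives at `x₀` of the relations of
`g Y` vanish); (2) the identity component is of finite index and irreducible (`exists_idc`); (3) an elimination by the
coefficients of the characteristic polynomial of the multiplication by `P(Y)` on `ℂ(x, Y)`, as a vector space over
`ℂ(x, Y_I)`, `Y_I` a transcendence basis: at a general point `s` at which `P` is a relation which does not hold on the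
orbit of the identity component, the lowest nonzero coefficient is a relation between the `Y_I(s)` (`bad_spec`). It is
small, and this is possible only on few hypersurfaces by the determinant method of the library, applied to the
algebraically independent functions `Y_I`.
-/

set_option autoImplicit false

open Filter NumberField

namespace Pool.Agent.Results.MP_77d3f5_ag.AllFamilies

/-- the value at `x` and at the matrix `Z` of a polynomial in the entries of a matrix, with coefficients in `ℂ[x]` -/
noncomputable def value {X ι : Type} (x : X → ℂ) (Z : Matrix ι ι ℂ) (p : MvPolynomial (ι × ι) (MvPolynomial X ℂ)) : ℂ :=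
  MvPolynomial.eval₂ (MvPolynomial.eval x) (fun v => Z v.1 v.2) p

/-- an algebraic connection on the affine space `ℂ ^ X` with a fundamental matrix `Y` of analytic solutions on `U` -/
structure Family (X ι : Type) [Fintype X] [DecidableEq X] [Fintype ι] [DecidableEq ι] where
  /-- a nonempty connected open set -/
  U : Set (X → ℂ)
  isOpen : IsOpen U
  connected : IsPreconnected U
  nonempty : U.Nonempty
  /-- the matrix of the solutions (periods) -/
  Y : (X → ℂ) → Matrix ι ι ℂ
  analytic : ∀ a b, AnalyticOnNhd ℂ (fun x => Y x a b) U
  det_ne : ∀ x ∈ U, (Y x).det ≠ 0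
  /-- the common denominator of the connection -/
  c : MvPolynomial X ℂ
  c_ne : c ≠ 0
  /-- the numerators -/
  B : X → Matrix ι ι (MvPolynomial X ℂ)
  /-- `c ∂_i Y = Y B_i` -/
  eqn : ∀ x ∈ U, ∀ i a b, MvPolynomial.eval x c * fderiv ℂ (fun x => Y x a b) x (Pi.single i 1) =
    ∑ e, Y x a e * MvPolynomial.eval x (B i e b)

section
variable {X ι : Type} [Fintype X] [DecidableEq X] [Fintype ι] [DecidableEq ι]

/-- all polynomial relations between the entries of `Y` over `ℂ[x]` are relations between the entries of `g Y` -/
def Preserves (F : Family X ι) (g : Matrix ι ι ℂ) : Prop :=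
  ∀ p : MvPolynomial (ι × ι) (MvPolynomial X ℂ), (∀ x ∈ F.U, value x (F.Y x) p = 0) →
    ∀ x ∈ F.U, value x (g * F.Y x) p = 0

/-- the Galois group -/
def Family.galois (F : Family X ι) : Subgroup (GL ι ℂ) where
  carrier := {g | Preserves F (g : Matrix ι ι ℂ)}
  mul_mem' := fun ha hb => (Pool.Agent.V11273.PV.Gal F.U F.Y).mul_mem' ha hb
  one_mem' := (Pool.Agent.V11273.PV.Gal F.U F.Y).one_mem'
  inv_mem' := fun ha => (Pool.Agent.V11273.PV.Gal F.U F.Y).inv_mem' ha

/-- the subgroup `H` of `G` is defined by polynomial equations -/
def ClosedIn {G : Subgroup (GL ι ℂ)} (H : Subgroup G) : Prop :=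
  ∃ E : Set (MvPolynomial (ι × ι) ℂ), ∀ h : G, h ∈ H ↔
    ∀ e ∈ E, MvPolynomial.eval (fun v => ((h : GL ι ℂ) : Matrix ι ι ℂ) v.1 v.2) e = 0

/-- the elements of `G` which lie in all closed subgroups of finite index of `G` -/
def identityComponent (G : Subgroup (GL ι ℂ)) : Set (GL ι ℂ) :=
  {g | ∃ hg : g ∈ G, ∀ H : Subgroup G, H.FiniteIndex → ClosedIn H → (⟨g, hg⟩ : G) ∈ H}

end

/-- quotients of two integers of `K`, all conjugates of which are at most `T` -/
def HeightLe (K : Type) [Field K] [NumberField K] (T : ℝ) (x : K) : Prop :=
  ∃ a b : 𝓞 K, b ≠ 0 ∧ house (a : K) ≤ T ∧ house (b : K) ≤ T ∧ x = a / b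

/-- `S` is covered by at most `m` hypersurfaces of degree at most `D` -/
def CoveredBy {X : Type} (D m : ℕ) (S : Set (X → ℂ)) : Prop :=
  ∃ Φ : Finset (MvPolynomial X ℂ), Φ.card ≤ m ∧ (∀ P ∈ Φ, P ≠ 0 ∧ P.totalDegree ≤ D) ∧
    ∀ x ∈ S, ∃ P ∈ Φ, MvPolynomial.eval x P = 0

/-- the points of norm at most `k` at distance at least `1 / k` from the complement of `U` -/
def Inner {X : Type} [Fintype X] (U : Set (X → ℂ)) (k : ℕ) : Set (X → ℂ) :=
  {z | ‖z‖ ≤ k ∧ Metric.ball z (k : ℝ)⁻¹ ⊆ U}

/-- the partial degrees of `P` are at most `k`, and its coefficients are `∑ ξ i * c i`, `i < k`, where the `c i` are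
integers of `K`, all conjugates of which are at most `T ^ k` -/
def Small {σ : Type} (K : Type) [Field K] [NumberField K] (io : K →+* ℂ) (k : ℕ) (ξ : Fin k → ℂ) (T : ℝ)
    (P : MvPolynomial σ ℂ) : Prop :=
  (∀ y, P.degreeOf y ≤ k) ∧ ∀ m, ∃ c : Fin k → 𝓞 K, (∀ i (φ : K →+* ℂ), ‖φ (c i : K)‖ ≤ T ^ (k : ℝ)) ∧
    P.coeff m = ∑ i, ξ i * io (c i : K)

section
variable {κ : Type} [Fintype κ] [DecidableEq κ] {X ι : κ → Type} [∀ j, Fintype (X j)] [∀ j, DecidableEq (X j)]
  [∀ j, Fintype (ι j)] [∀ j, DecidableEq (ι j)]

/-- the tuples of points of the domains of the families -/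
def domain (F : ∀ j, Family (X j) (ι j)) : Set ((Σ j, X j) → ℂ) := {z | ∀ j, (fun i => z ⟨j, i⟩) ∈ (F j).U}

/-- The exceptional tuples `s` of points with coordinates in `K`: they are of height at most `T`, in the compact set
`Inner (domain F) k`, and some small polynomial `P` vanishes at the tuple of the matrices `Y_j(s_j)` but not at
`g_j Y_j(s_j)` for some elements `g_j` of the identity components of the Galois groups. -/
def Exceptional (F : ∀ j, Family (X j) (ι j)) (K : Type) [Field K] [NumberField K] (io : K →+* ℂ) (k : ℕ)
    (ξ : Fin k → ℂ) (T : ℝ) : Set ((Σ j, X j) → K) :=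
  {s | (∀ i, HeightLe K T (s i)) ∧ (fun i => io (s i)) ∈ Inner (domain F) k ∧
    ∃ P : MvPolynomial (Σ j, ι j × ι j) ℂ, Small K io k ξ T P ∧
      MvPolynomial.eval (fun v => (F v.1).Y (fun i => io (s ⟨v.1, i⟩)) v.2.1 v.2.2) P = 0 ∧
      ∃ g : ∀ j, GL (ι j) ℂ, (∀ j, g j ∈ identityComponent (F j).galois) ∧
        MvPolynomial.eval (fun v => ((g v.1 : Matrix (ι v.1) (ι v.1) ℂ) * (F v.1).Y fun i => io (s ⟨v.1, i⟩))
          v.2.1 v.2.2) P ≠ 0}

/-- Let `F_j`, `j` in a finite set, be any families. There is `ω → ∞` such that for all large `T`, all number fields `K`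
of degree at most `ω T`, embedded in `ℂ`, and all complex numbers `ξ i`, `i < ω T` (for example the powers of `2 π i`, or
products of periods of fixed varieties), the set `Exceptional F K io (ω T) ξ T` lies on at most `T ^ (1 / ω T)`
hypersurfaces of degree at most `T ^ (1 / ω T)`, and has at most `T ^ (1 / ω T) * N ^ (d - 1)` elements, where `d` is the
dimension of the product of the bases and `N` is the number of the elements of `K` of height at most `T`. Outside of this
set, for all points `s_j` with coordinates in `K` of height at most `T` (in `Inner (domain F) (ω T)`), all relations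
between the periods `Y_j(s_j)` of the fibres, of partial degrees at most `ω T` and with coefficients `∑ ξ i * c i`, `c i`
integers of `K` of size at most `T ^ ω T`, are relations between the entries of `g_j Y_j(s_j)` for all `g_j` in the
identity components of the Galois groups. -/
theorem result [Nonempty (Σ j, X j)] (F : ∀ j, Family (X j) (ι j)) :
    ∃ (ω : ℝ → ℕ) (T₀ : ℝ), Tendsto ω atTop atTop ∧ Monotone ω ∧ ∀ T, T₀ ≤ T → 0 < ω T ∧
      ∀ (K : Type) [Field K] [NumberField K], Module.finrank ℚ K ≤ ω T → ∀ (io : K →+* ℂ) (ξ : Fin (ω T) → ℂ),
        CoveredBy ⌊T ^ ((ω T : ℝ)⁻¹)⌋₊ ⌊T ^ ((ω T : ℝ)⁻¹)⌋₊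
          ((fun s i => io (s i)) '' Exceptional F K io (ω T) ξ T) ∧
        (Exceptional F K io (ω T) ξ T).Finite ∧
        ((Exceptional F K io (ω T) ξ T).ncard : ℝ) ≤
          T ^ ((ω T : ℝ)⁻¹) * ({x : K | HeightLe K T x}.ncard : ℝ) ^ (Fintype.card (Σ j, X j) - 1) :=
  Pool.Agent.V11273.PV.main3 (U := fun j => (F j).U) (Y := fun j => (F j).Y) (fun j => (F j).connected)
    (fun j => (F j).isOpen) (fun j => (F j).nonempty) (fun j => (F j).analytic) (fun j => (F j).det_ne)
    (fun j => (F j).c_ne) (fun j => (F j).eqn)

end

end Pool.Agent.Results.MP_77d3f5_ag.AllFamilies
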