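import Pool.Agent.V11273.PV.G6
import Pool.Agent.H107.Per

/-!
# The period conjecture in bounded degree and height for all fibres over algebraic points close to a point

A family (`Family X ι`) is an algebraic connection `c ∂_i Y = Y B_i` over the affine space with coordinates `x_i`, `i ∈ X`,
with an invertible matrix `Y` of analytic solutions on a nonempty connected open set `U`, for example the period matrix of
any family of algebraic varieties. `galois` is the group of the invertible constant matrices `g` such that all polynomial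
relations over `ℂ[x]` between the entries of `Y` are relations between the entries of `g Y`; `identityComponent` is the
intersection of its closed subgroups of finite index. The theorem treats products of fibres of several families.

For one parameter: there is a set `E` of complex numbers of Hausdorff dimension zero such that for all points `z` of the
domain outside of `E`, all exponents `w > 0` (arbitrarily small), all number fields `K` and all `k`, for large `T`, ALL
points `s` with coordinates in `K` of height at most `T` at distance at most `T ^ (-w)` from `z` satisfy the period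
conjecture up to degree `k` and height `T ^ k`: all relations of partial degrees at most `k` between the periods `Y (s)`,
with coefficients `∑ ξ i * c i`, `i < k`, `c i` integers of `K` of size at most `T ^ k`, are relations between the entries
of `g Y (s)` for all `g` in the identity component of the Galois group. For instance, for all real `z` in the domain outside
of a set of dimension zero this holds for the fibres over all but finitely many of the convergents of `z`. For bases of
total dimension `d` and number fields of degree at most `D` the exceptional set is of dimension at most `2 D (d - 1) / w`.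
-/

set_option autoImplicit false

open Filter NumberField

namespace Pool.Agent.Results.MP_77d3f5_ag.NearPointsDimensionZero

/-- the value at `x` and at the matrix `Z` of a polynomial in the entries of a matrix, with coefficients in `ℂ[x]` -/
noncomputable def value {X ι : Type} (x : X → ℂ) (Z : Matrix ι ι ℂ) (p : MvPolynomial (ι × ι) (MvPolynomial X ℂ)) : ℂ :=
  MvPolynomial.eval₂ (MvPolynomial.eval x) (fun v => Z v.1 v.2) p

/-- an algebraic connection on the affine space `ℂ ^ X` with a fundamental matrix `Y` of analytic solutions on `U` -/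
structure Family (X ι : Type) [Fintype X] [DecidableEq X] [Fintype ι] [DecidableEq ι] where
  /-- a nonempty connected open set -/
  U : Set (X → ℂ)
  isOpen : IsOpen U
  connected : IsPreconnected U
  nonempty : U.Nonempty
  /-- the matrix of the solutions (periods) -/
  Y : (X → ℂ) → Matrix ι ι ℂ
  analytic : ∀ a b, AnalyticOnNhd ℂ (fun x => Y x a b) U
  det_ne : ∀ x ∈ U, (Y x).det ≠ 0
  /-- the common denominator of the connection -/
  c : MvPolynomial X ℂ
  c_ne : c ≠ 0
  /-- the numerators -/
  B : X → Matrix ι ι (MvPolynomial X ℂ)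
  /-- `c ∂_i Y = Y B_i` -/
  eqn : ∀ x ∈ U, ∀ i a b, MvPolynomial.eval x c * fderiv ℂ (fun x => Y x a b) x (Pi.single i 1) =
    ∑ e, Y x a e * MvPolynomial.eval x (B i e b)

section
variable {X ι : Type} [Fintype X] [DecidableEq X] [Fintype ι] [DecidableEq ι]

/-- all polynomial relations between the entries of `Y` over `ℂ[x]` are relations between the entries of `g Y` -/
def Preserves (F : Family X ι) (g : Matrix ι ι ℂ) : Prop :=
  ∀ p : MvPolynomial (ι × ι) (MvPolynomial X ℂ), (∀ x ∈ F.U, value x (F.Y x) p = 0) →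
    ∀ x ∈ F.U, value x (g * F.Y x) p = 0

/-- the Galois group -/
def Family.galois (F : Family X ι) : Subgroup (GL ι ℂ) where
  carrier := {g | Preserves F (g : Matrix ι ι ℂ)}
  mul_mem' := fun ha hb => (Pool.Agent.V11273.PV.Gal F.U F.Y).mul_mem' ha hb
  one_mem' := (Pool.Agent.V11273.PV.Gal F.U F.Y).one_mem'
  inv_mem' := fun ha => (Pool.Agent.V11273.PV.Gal F.U F.Y).inv_mem' ha

/-- the subgroup `H` of `G` is defined by polynomial equations -/
def ClosedIn {G : Subgroup (GL ι ℂ)} (H : Subgroup G) : Prop :=
  ∃ E : Set (MvPolynomial (ι × ι) ℂ), ∀ h : G, h ∈ H ↔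
    ∀ e ∈ E, MvPolynomial.eval (fun v => ((h : GL ι ℂ) : Matrix ι ι ℂ) v.1 v.2) e = 0

/-- the elements of `G` which lie in all closed subgroups of finite index of `G` -/
def identityComponent (G : Subgroup (GL ι ℂ)) : Set (GL ι ℂ) :=
  {g | ∃ hg : g ∈ G, ∀ H : Subgroup G, H.FiniteIndex → ClosedIn H → (⟨g, hg⟩ : G) ∈ H}

end

/-- quotients of two integers of `K`, all conjugates of which are at most `T` -/
def HeightLe (K : Type) [Field K] [NumberField K] (T : ℝ) (x : K) : Prop :=
  ∃ a b : 𝓞 K, b ≠ 0 ∧ house (a : K) ≤ T ∧ house (b : K) ≤ T ∧ x = a / b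

/-- the partial degrees of `P` are at most `k`, and its coefficients are `∑ ξ i * c i`, `i < k`, where the `c i` are
integers of `K`, all conjugates of which are at most `T ^ k` -/
def Small {σ : Type} (K : IntermediateField ℚ ℂ) [NumberField K] (k : ℕ) (ξ : ℕ → ℂ) (T : ℝ)
    (P : MvPolynomial σ ℂ) : Prop :=
  (∀ y, P.degreeOf y ≤ k) ∧ ∀ m, ∃ c : Fin k → 𝓞 K, (∀ i (φ : K →+* ℂ), ‖φ (c i : K)‖ ≤ T ^ (k : ℝ)) ∧
    P.coeff m = ∑ i : Fin k, ξ i * ((c i : K) : ℂ)

section
variable {κ : Type} [Fintype κ] [DecidableEq κ] {X ι : κ → Type} [∀ j, Fintype (X j)] [∀ j, DecidableEq (X j)]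
  [∀ j, Fintype (ι j)] [∀ j, DecidableEq (ι j)]

/-- the tuples of points of the domains of the families -/
def domain (F : ∀ j, Family (X j) (ι j)) : Set ((Σ j, X j) → ℂ) := {z | ∀ j, (fun i => z ⟨j, i⟩) ∈ (F j).U}

/-- All points `s` with coordinates in `K` of height at most `T` and with `‖s - z‖ ≤ T ^ (-w)` (maximum norm) have the
following property: if a small polynomial `P` vanishes at the tuple of the matrices `Y_j(s_j)`, then it vanishes at
`g_j Y_j(s_j)` for all `g_j` in the identity components of the Galois groups. -/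
def GoodNear (F : ∀ j, Family (X j) (ι j)) (ξ : ℕ → ℂ) (z : (Σ j, X j) → ℂ) (w : ℝ) (K : IntermediateField ℚ ℂ)
    [NumberField K] (k : ℕ) (T : ℝ) : Prop :=
  ∀ s : (Σ j, X j) → K, (∀ i, HeightLe K T (s i)) → ‖(fun i => (s i : ℂ)) - z‖ ≤ T ^ (-w) →
    ∀ P : MvPolynomial (Σ j, ι j × ι j) ℂ, Small K k ξ T P →
      MvPolynomial.eval (fun v => (F v.1).Y (fun i => (s ⟨v.1, i⟩ : ℂ)) v.2.1 v.2.2) P = 0 →
      ∀ g : ∀ j, GL (ι j) ℂ, (∀ j, g j ∈ identityComponent (F j).galois) →
        MvPolynomial.eval (fun v => ((g v.1 : Matrix (ι v.1) (ι v.1) ℂ) * (F v.1).Y fun i => (s ⟨v.1, i⟩ : ℂ))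
          v.2.1 v.2.2) P = 0

lemma omega [Nonempty (Σ j, X j)] (F : ∀ j, Family (X j) (ι j)) :
    Pool.Agent.V11273.PV.OmegaStm (fun k K [Field K] [NumberField K] io ξ T =>
      Pool.Agent.V11273.PV.ExcB (Pool.Agent.V11273.PV.UU fun j => (F j).U) (Pool.Agent.V11273.PV.fE fun j => (F j).Y)
        (Pool.Agent.V11273.PV.Bad3 (fun j => (F j).U) fun j => (F j).Y) K io k ξ T) :=
  Pool.Agent.V11273.PV.main3 (U := fun j => (F j).U) (Y := fun j => (F j).Y) (fun j => (F j).connected)
    (fun j => (F j).isOpen) (fun j => (F j).nonempty) (fun j => (F j).analytic) (fun j => (F j).det_ne)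
    (fun j => (F j).c_ne) (fun j => (F j).eqn)

lemma good_of {F : ∀ j, Family (X j) (ι j)} {ξ : ℕ → ℂ} {z : (Σ j, X j) → ℂ} {w : ℝ} {K : IntermediateField ℚ ℂ}
    [NumberField K] {k : ℕ} {T : ℝ}
    (h : ∀ s : (Σ j, X j) → K, (∀ i, Y120.HtLe K T (s i)) →
      ‖(fun i => (s i : ℂ)) - z‖ ≤ T ^ (-w) → ∀ P : MvPolynomial (Σ j, ι j × ι j) ℂ,
        Pool.Agent.V11273.PV.Small K (algebraMap K ℂ) k (Pool.Agent.H107.Per.res ξ k) T P →
        MvPolynomial.eval (fun y => Pool.Agent.V11273.PV.fE (fun j => (F j).Y) y fun j => (s j : ℂ)) P = 0 →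
          ¬ Pool.Agent.V11273.PV.Bad3 (fun j => (F j).U) (fun j => (F j).Y) (fun j => (s j : ℂ)) P) :
    GoodNear F ξ z w K k T := by
  intro s hs hz P hP h0 g hg
  by_contra hne
  exact h s hs hz P hP h0 ⟨g, hg, hne⟩

/-- **Theorem.** Let `F_j`, `j` in a finite set, be families, `d` the dimension of the product of their bases, and `ξ i`
any complex numbers (for example the powers of `2 π i`).
(1) If `d = 1` there is a set `E` of Hausdorff dimension `0` such that for all `z` in the domain outside of `E`, all
`w > 0`, all number fields `K ⊂ ℂ` and all `k`, the property `GoodNear F ξ z w K k T` holds for all large `T`.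
(2) In general for all `D` and `w > 0` there is a set `E` of Hausdorff dimension at most `2 D (d - 1) / w` such that for
all `z` in the domain outside of `E`, all number fields `K ⊂ ℂ` of degree at most `D` and all `k`, the property
`GoodNear F ξ z w K k T` holds for all large `T`. -/
theorem result [Nonempty (Σ j, X j)] (F : ∀ j, Family (X j) (ι j)) (ξ : ℕ → ℂ) :
    (Fintype.card (Σ j, X j) = 1 → ∃ E : Set ((Σ j, X j) → ℂ), dimH E = 0 ∧ ∀ z ∈ domain F, z ∉ E → ∀ w : ℝ, 0 < w →
      ∀ (K : IntermediateField ℚ ℂ) [NumberField K], ∀ k : ℕ, ∀ᶠ T : ℝ in atTop, GoodNear F ξ z w K k T) ∧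
    ∀ (D : ℕ) (w : ℝ), 0 < w → ∃ E : Set ((Σ j, X j) → ℂ),
      dimH E ≤ ENNReal.ofReal (2 * D * ((Fintype.card (Σ j, X j) : ℝ) - 1) / w) ∧ ∀ z ∈ domain F, z ∉ E →
        ∀ (K : IntermediateField ℚ ℂ) [NumberField K], Module.finrank ℚ K ≤ D → ∀ k : ℕ,
          ∀ᶠ T : ℝ in atTop, GoodNear F ξ z w K k T := by
  have hopen : IsOpen (Pool.Agent.V11273.PV.UU fun j => (F j).U) :=
    Pool.Agent.V11273.PV.UU_open fun j => (F j).isOpen
  have hcard : 1 ≤ Fintype.card (Σ j, X j) := Fintype.card_pos
  refine ⟨fun h1 => ?_, fun D w hw => ?_⟩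
  · obtain ⟨E, hE, h⟩ := Pool.Agent.H107.Per.near_zero h1 hopen (omega F) ξ
    refine ⟨E, hE, fun z hz hzE w hw K _ k => ?_⟩
    obtain ⟨T₁, hT₁⟩ := h z hz hzE w hw K k
    exact Filter.eventually_atTop.2 ⟨T₁, fun T hT => good_of (hT₁ T hT)⟩
  · obtain ⟨E, hE, h⟩ := Pool.Agent.H107.Per.near hopen (omega F) ξ D hw
    refine ⟨E, hE.trans (le_of_eq ?_), fun z hz hzE K _ hK k => ?_⟩
    · congr 2
      push_cast [Nat.cast_sub hcard]
      ring
    · obtain ⟨T₁, hT₁⟩ := h z hz hzE K hK k
      exact Filter.eventually_atTop.2 ⟨T₁, fun T hT => good_of (hT₁ T hT)⟩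

end

end Pool.Agent.Results.MP_77d3f5_ag.NearPointsDimensionZero
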