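import Pool.Agent.Results.MP_77d3f5_ag.HyperellipticWindows
import Pool.Agent.V11286.NE.Vol

/-!
# The Grothendieck period conjecture in bounded degree for ALL hyperelliptic curves of a family in short windows along
# sequences: no exceptional fibres

`f ∈ ℚ[X]` is monic of degree `n = 2g` with `n` distinct real roots, all different from `0`, and `C(z)` is the curve
`y² = f(x) (x - z)` of genus `g`. The starting file `HyperellipticWindows` proves the period conjecture in degree `≤ d` over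
all number fields of degree `≤ D` (all heights) for the curves `C(1/x)` and the products of `k` of them, `x` in short windows
in a progression modulo `G`, outside a set of at most `n (n + 1) / 2 + 1` fibres in each window. Here there are no exceptional
fibres: let `v_l ≥ 1` be a sequence with exponent of convergence at most `τ`. For all `α > 0` outside a set of Hausdorff
dimension at most `(1 - c + τ) / (1 - θ)`, `θ ≤ c`, and all large `l` it holds for ALL the curves `C(1/x)` with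
`|x - α v_l| ≤ v_l ^ θ` and for ALL products of `k` distinct ones with `x_i` congruent modulo `G`. If the exponent of
convergence is zero (for example `v_l = 2 ^ l`), then almost every `α` works for all `k`, `D`, `d` at the same time.
-/

set_option autoImplicit false

open Polynomial NumberField MeasureTheory Filter

namespace Pool.Agent.Results.MP_77d3f5_ag.SequencesWithoutExceptions

variable {n N : ℕ}

/-- the branch points: `t` inserted at place `m` in the sequence of the `a i` -/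
noncomputable def branch (a : Fin n → ℝ) (m : Fin (n + 1)) (t : ℝ) : Fin (n + 1) → ℝ :=
  Fin.insertNth (α := fun _ => ℝ) m t a

/-- the period `∮ x^j dx / y`, `y² = ∏ (x - e i)`, over the loop around the segment `[e l, e (l + 1)]`, that is twice
the integral over the segment (principal branch of the square root) -/
noncomputable def period (e : Fin (n + 1) → ℝ) (l j : Fin n) : ℂ :=
  2 * ∫ x in (e l.castSucc)..(e l.succ), (x : ℂ) ^ (j : ℕ) / (((∏ i, (x - e i) : ℝ) : ℂ) ^ (1 / 2 : ℂ))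

/-- the polarisation in terms of the forms `x^j dx / y`, `y² = F(x) = ∑ c_k x^k`: entries `(i - j)/2 * c_(i+j+2)` -/
noncomputable def polDR (n : ℕ) (F : ℚ[X]) : Matrix (Fin n) (Fin n) ℚ :=
  Matrix.of fun i j => (((i : ℕ) : ℚ) - ((j : ℕ) : ℚ)) / 2 * F.coeff ((i : ℕ) + (j : ℕ) + 2)

/-- the polarisation in terms of the loops: `2 (-1)^r` at `(r, s)`, `|r - s| = 1` -/
def polB (n : ℕ) : Matrix (Fin n) (Fin n) ℚ :=
  Matrix.of fun r s => if (r : ℕ) = s + 1 ∨ (s : ℕ) = r + 1 then 2 * (-1) ^ (r : ℕ) else 0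

/-- the point with coordinates the entries of the matrices `X j` and `lam` -/
def point (X : Fin N → Matrix (Fin n) (Fin n) ℂ) (lam : ℂ) : Option (Fin N × Fin n × Fin n) → ℂ :=
  fun o => o.elim lam fun x => X x.1 x.2.1 x.2.2

/-- the complex points of the torsor of the curves `y² = F_j(x)`: matrices `X_j` and `lam ≠ 0` with
`X_j polDR(F_j) X_jᵀ = lam polB` (a torsor under `{(g_1, …, g_N) : g_j ∈ GSp_(2g), equal multipliers}`) -/
def Torsor (F : Fin N → ℚ[X]) : Set ((Fin N → Matrix (Fin n) (Fin n) ℂ) × ℂ) :=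
  {x | x.2 ≠ 0 ∧ ∀ j, x.1 j * (polDR n (F j)).map (algebraMap ℚ ℂ) * (x.1 j).transpose =
    x.2 • (polB n).map (algebraMap ℚ ℂ)}

/-- every polynomial `P` of degree `≤ d` with coefficients in a number field of degree `≤ D` (any such field, no bound
on the height of the coefficients) with `P(c) = 0` vanishes on the torsor -/
def DegreeGPC (F : Fin N → ℚ[X]) (c : Option (Fin N × Fin n × Fin n) → ℂ) (D d : ℕ) : Prop :=
  ∀ (K : Type) [Field K] [NumberField K] (φ : K →+* ℂ) (P : MvPolynomial (Option (Fin N × Fin n × Fin n)) K),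
    Module.finrank ℚ K ≤ D → P.totalDegree ≤ d → (P.map φ).eval c = 0 →
    ∀ x ∈ Torsor (n := n) F, (P.map φ).eval (point x.1 x.2) = 0

/-- relations with the periods `c0` of the central fibre: every polynomial `P` of degree `≤ d` with coefficients in a
number field of degree `≤ D` with `P(c0, c) = 0` vanishes at `(c0, x)` for all the points `x` of the torsor with
`lam = 2πi` -/
def RelativeGPC (c0 : Fin n × Fin n → ℂ) (F : Fin N → ℚ[X]) (c : Option (Fin N × Fin n × Fin n) → ℂ) (D d : ℕ) : Prop :=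
  ∀ (K : Type) [Field K] [NumberField K] (φ : K →+* ℂ)
    (P : MvPolynomial ((Fin n × Fin n) ⊕ Option (Fin N × Fin n × Fin n)) K),
    Module.finrank ℚ K ≤ D → P.totalDegree ≤ d → (P.map φ).eval (Sum.elim c0 c) = 0 →
    ∀ x ∈ Torsor (n := n) F, x.2 = 2 * Real.pi * Complex.I → (P.map φ).eval (Sum.elim c0 (point x.1 x.2)) = 0

/-- the family of curves `y² = f(X) (X - 1/x_j)` -/
noncomputable def curves (f : ℚ[X]) (x : Fin N → ℕ) (j : Fin N) : ℚ[X] := f * (X - C (1 / (x j : ℚ)))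

/-- the period matrices of the curves `y² = f(X) (X - 1/x_j)` -/
noncomputable def periods (a : Fin n → ℝ) (m : Fin (n + 1)) (x : Fin N → ℕ) (j : Fin N) : Matrix (Fin n) (Fin n) ℂ :=
  Matrix.of (period (branch a m (1 / (x j : ℝ))))

/-- The `1 / x_j` are in the gap of `0`, the period matrices and `2πi` form a point of the torsor, and all the relations of
degree `≤ d` over number fields of degree `≤ D` between these numbers, or between them and the periods of the central fibre,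
hold on the torsor. -/
def Good (a : Fin n → ℝ) (f : ℚ[X]) (m : Fin (n + 1)) (D d : ℕ) (x : Fin N → ℕ) : Prop :=
  (∀ j, 0 < x j ∧ StrictMono (branch a m (1 / (x j : ℝ)))) ∧
    (periods a m x, (2 * Real.pi * Complex.I : ℂ)) ∈ Torsor (n := n) (curves f x) ∧
    DegreeGPC (curves f x) (point (periods a m x) (2 * Real.pi * Complex.I)) D d ∧
    RelativeGPC (fun y => period (branch a m 0) y.1 y.2) (curves f x)
      (point (periods a m x) (2 * Real.pi * Complex.I)) D d

/-- The exponent of convergence of the sequence `v` is at most `τ`. -/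
def ConvergenceExponentLe (v : ℕ → ℝ) (τ : ℝ) : Prop := ∀ s : ℝ, τ < s → Summable (fun l : ℕ => (v l) ^ (-s))

/-- the windows of the starting file, for the integers of `[q, q + q ^ c]` in one class modulo `G` -/
theorem windows (hn : Even n) (a : Fin n → ℝ) (f : ℚ[X])
    (hf : f.map (algebraMap ℚ ℝ) = ∏ i, (X - C (a i))) (m : Fin (n + 1)) (h0 : StrictMono (branch a m 0)) :
    ∃ G0 : ℕ, ∀ G : ℕ, G0 ≤ G → 1 ≤ G → ∀ k D d : ℕ, ∃ (c : ℝ) (q₀ : ℕ), 0 < c ∧ c ≤ 1 ∧ ∀ q : ℕ, q₀ ≤ q →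
      ∃ S : Finset ℕ, S.card ≤ G * (n * (n + 1) + 2) ∧ ∀ x : Fin k → ℕ, Function.Injective x →
        (∀ i j, x i ≡ x j [MOD G]) → (∀ i, q ≤ x i ∧ (x i : ℝ) ≤ q + (q : ℝ) ^ c ∧ x i ∉ S) → Good a f m D d x := by
  obtain ⟨G0, hG0⟩ := Pool.Agent.Results.MP_77d3f5_ag.HyperellipticWindows.result hn a f hf m h0
  refine ⟨G0, fun G hG hG1 k D d => ?_⟩
  obtain ⟨E, hE⟩ := hG0 G hG k D d
  set F : ℕ := E + 1 with hF
  have hF1 : (1 : ℝ) ≤ F := by rw [hF]; push_cast; linarith [show (0 : ℝ) ≤ E by positivity]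
  set c : ℝ := 1 / (2 * F) with hc
  have hc0 : 0 < c := by positivity
  have hc1 : c ≤ 1 := by
    rw [hc, div_le_one (by positivity)]
    linarith
  refine ⟨c, 25 ^ F, hc0, hc1, fun q hq => ?_⟩
  have hq1' : 1 ≤ q := le_trans (Nat.one_le_pow _ _ (by norm_num)) hq
  have hq1 : (1 : ℝ) ≤ q := by exact_mod_cast hq1'
  have hq0 : (0 : ℝ) < q := by linarith
  have hqc1 : 1 ≤ (q : ℝ) ^ c := Real.one_le_rpow hq1 hc0.le
  set B : ℕ := q + ⌊(q : ℝ) ^ c⌋₊ + 1 with hB
  set H : ℕ := ⌊(q : ℝ) ^ c⌋₊ + 2 with hH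
  have hHle : (⌊(q : ℝ) ^ c⌋₊ : ℝ) ≤ (q : ℝ) ^ c := Nat.floor_le (by positivity)
  have hHE : (H + 2) ^ E ≤ q := by
    have h2 : ((H : ℝ) + 2) ^ F ≤ q := by
      have h3 : (H : ℝ) + 2 ≤ 5 * (q : ℝ) ^ c := by
        rw [hH]
        push_cast
        linarith
      have hcF : ((q : ℝ) ^ c) ^ F = (q : ℝ) ^ (1 / 2 : ℝ) := by
        rw [← Real.rpow_natCast, ← Real.rpow_mul hq0.le, hc]
        congr 1
        field_simp
      calc ((H : ℝ) + 2) ^ F ≤ (5 * (q : ℝ) ^ c) ^ F := pow_le_pow_left₀ (by positivity) h3 _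
        _ = 5 ^ F * (q : ℝ) ^ (1 / 2 : ℝ) := by rw [mul_pow, hcF]
        _ ≤ (q : ℝ) ^ (1 / 2 : ℝ) * (q : ℝ) ^ (1 / 2 : ℝ) := by
            refine mul_le_mul_of_nonneg_right ?_ (by positivity)
            have h4 : ((25 : ℝ) ^ F) ≤ q := by exact_mod_cast hq
            have h5 : (5 : ℝ) ^ F = ((25 : ℝ) ^ F) ^ (1 / 2 : ℝ) := by
              rw [show (25 : ℝ) = 5 ^ (2 : ℕ) by norm_num, ← pow_mul, mul_comm, pow_mul, ← Real.sqrt_eq_rpow,
                Real.sqrt_sq (by positivity)]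
            rw [h5]
            exact Real.rpow_le_rpow (by positivity) h4 (by norm_num)
        _ = q := by
            rw [← Real.rpow_add hq0]
            norm_num
    have h3 : (H + 2) ^ F ≤ q := by exact_mod_cast h2
    exact (Nat.pow_le_pow_right (by omega) (by omega)).trans h3
  have hBq : q ≤ B := by omega
  choose! hmono S hS1 hS2 hS3 using fun (ρ : ℕ) => hE H (B + ρ) (hHE.trans (by omega))
  refine ⟨(Finset.range G).biUnion fun ρ => (S ρ).image fun u => B + ρ - G * u, ?_, fun x hx hmod hxi => ?_⟩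
  · refine Finset.card_biUnion_le.trans ((Finset.sum_le_card_nsmul _ _ (n * (n + 1) + 2) fun ρ _ => ?_).trans ?_)
    · refine Finset.card_image_le.trans ?_
      have := hS2 ρ
      omega
    · rw [Finset.card_range, smul_eq_mul]
  · -- the class of the tuple
    obtain ⟨ρ, hρ, hρx⟩ : ∃ ρ, ρ < G ∧ ∀ j, B + ρ ≡ x j [MOD G] := by
      rcases Nat.eq_zero_or_pos k with rfl | hk
      · exact ⟨0, by omega, fun j => j.elim0⟩
      · refine ⟨(x ⟨0, hk⟩ + (G - 1) * B) % G, Nat.mod_lt _ (by omega), fun j => ?_⟩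
        have h1 : B + (x ⟨0, hk⟩ + (G - 1) * B) % G ≡ B + (x ⟨0, hk⟩ + (G - 1) * B) [MOD G] :=
          Nat.ModEq.add_left _ (Nat.mod_modEq _ _)
        have h2 : B + (x ⟨0, hk⟩ + (G - 1) * B) = x ⟨0, hk⟩ + G * B := by
          obtain ⟨g, rfl⟩ : ∃ g, G = g + 1 := ⟨G - 1, by omega⟩
          rw [Nat.add_sub_cancel]
          ring
        rw [h2] at h1
        have h3 : x ⟨0, hk⟩ + G * B ≡ x ⟨0, hk⟩ [MOD G] := by
          simp [Nat.ModEq]
        exact (h1.trans h3).trans (hmod _ _)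
    have hxlt : ∀ j, x j < B := by
      intro j
      have h1 : (x j : ℝ) < ((q + ⌊(q : ℝ) ^ c⌋₊ + 1 : ℕ) : ℝ) := by
        push_cast
        have := (hxi j).2.1
        have h2 := Nat.lt_floor_add_one ((q : ℝ) ^ c)
        linarith
      exact_mod_cast h1
    have hdvd : ∀ j, G ∣ B + ρ - x j := fun j => (Nat.modEq_iff_dvd' (by have := hxlt j; omega)).1 (hρx j).symm
    choose u hu using hdvd
    have hxu : ∀ j, B + ρ = x j + G * u j := fun j => by
      have := hxlt j
      have := hu j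
      omega
    have hu1 : ∀ j, 1 ≤ u j := by
      intro j
      rcases Nat.eq_zero_or_pos (u j) with h | h
      · have h1 := hxu j
        rw [h] at h1
        have := hxlt j
        omega
      · exact h
    have huH : ∀ j, u j ≤ H := by
      intro j
      have h1 := hxu j
      have h2 := (hxi j).1
      by_contra hcon
      have h3 : G * (H + 1) ≤ G * u j := Nat.mul_le_mul_left _ (by omega)
      have h4 : G * (H + 1) ≤ ⌊(q : ℝ) ^ c⌋₊ + 1 + G := by omega
      have h5 : G * H ≤ ⌊(q : ℝ) ^ c⌋₊ + 1 := by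
        have : G * (H + 1) = G * H + G := by ring
        omega
      have h6 : H ≤ G * H := Nat.le_mul_of_pos_left _ (by omega)
      omega
    have huinj : Function.Injective u := by
      intro i j hij
      apply hx
      have h1 := hxu i
      have h2 := hxu j
      rw [hij] at h1
      omega
    have hconv : ∀ j, ((B + ρ : ℕ) : ℝ) - G * u j = x j := by
      intro j
      rw [hxu j]
      push_cast
      ring
    have hconvQ : ∀ j, ((B + ρ : ℕ) : ℚ) - G * u j = x j := by
      intro j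
      rw [hxu j]
      push_cast
      ring
    have huS : ∀ j, u j ∉ S ρ := by
      intro j hj
      apply (hxi j).2.2
      rw [Finset.mem_biUnion]
      refine ⟨ρ, Finset.mem_range.2 hρ, Finset.mem_image.2 ⟨u j, hj, ?_⟩⟩
      have := hxu j
      omega
    obtain ⟨b1, b2, b3⟩ := hS3 ρ u huinj fun j => ⟨hu1 j, huH j, huS j⟩
    have e1 : (fun j => Matrix.of (HyperellipticWindows.period
        (HyperellipticWindows.branch a m (1 / (((B + ρ : ℕ) : ℝ) - G * u j))))) = periods a m x := by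
      funext j
      rw [hconv j]
      rfl
    have e2 : (fun j => f * (X - C (1 / (((B + ρ : ℕ) : ℚ) - G * u j)))) = curves f x := by
      funext j
      rw [hconvQ j]
      rfl
    rw [e1, e2] at b1 b2 b3
    refine ⟨fun j => ⟨lt_of_lt_of_le (by omega : 0 < q) (hxi j).1, ?_⟩, b1, b2, b3⟩
    have h1 := (hmono ρ (u j) (huH j)).2
    rw [hconv j] at h1
    exact h1

/-- Let `f ∈ ℚ[X]` be monic of even degree `n` with distinct real roots `a`, all different from `0`; `m` is the place of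
`0` among the roots. There is `G0` such that for all `G ≥ G0`:
(1) For all `k`, `D`, `d` there is `c` with `0 < c < 1` such that for every sequence `v_l ≥ 1` with exponent of convergence at
most `τ`, every `θ ≤ c` and all `α > 0` outside a set of Hausdorff dimension at most `(1 - c + τ) / (1 - θ)`: for all large `l`
ALL `k`-tuples of distinct integers `x_i`, congruent modulo `G`, with `|x_i - α v_l| ≤ v_l ^ θ` are good: the period matrices
of the curves `y² = f(X) (X - 1 / x_i)` and `2πi` form a point of the torsor, and all the relations of degree `≤ d` over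
number fields of degree `≤ D` which hold at this point hold on the torsor, also relative to the central fibre.
(2) If the exponent of convergence is zero, then almost every `α > 0` works for all `k`, `D`, `d`, with some `θ > 0` depending
on `k`, `D`, `d`. (3) For instance `v_l = 2 ^ l`. For `k = 1` there is no congruence condition: all the curves
`y² = f(X) (X - 1 / x)` in the windows satisfy the period conjecture in this sense. -/
theorem result (hn : Even n) (a : Fin n → ℝ) (f : ℚ[X])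
    (hf : f.map (algebraMap ℚ ℝ) = ∏ i, (X - C (a i))) (m : Fin (n + 1)) (h0 : StrictMono (branch a m 0)) :
    ∃ G0 : ℕ, 1 ≤ G0 ∧ ∀ G : ℕ, G0 ≤ G →
      (∀ k D d : ℕ, ∃ c : ℝ, 0 < c ∧ c < 1 ∧
        ∀ (v : ℕ → ℝ) (τ θ : ℝ), (∀ l, 1 ≤ v l) → 0 ≤ τ → ConvergenceExponentLe v τ → θ ≤ c →
        ∃ Y : Set ℝ, dimH Y ≤ ENNReal.ofReal ((1 - c + τ) / (1 - θ)) ∧ ∀ α : ℝ, 0 < α → α ∉ Y →
          ∃ l₀ : ℕ, ∀ l : ℕ, l₀ ≤ l → ∀ x : Fin k → ℕ, Function.Injective x → (∀ i j, x i ≡ x j [MOD G]) →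
            (∀ i, |(x i : ℝ) - α * v l| ≤ (v l) ^ θ) → Good a f m D d x) ∧
      (∀ v : ℕ → ℝ, (∀ l, 1 ≤ v l) → ConvergenceExponentLe v 0 → ∀ᵐ α : ℝ, 0 < α → ∀ k D d : ℕ, ∃ θ : ℝ, 0 < θ ∧
          ∃ l₀ : ℕ, ∀ l : ℕ, l₀ ≤ l → ∀ x : Fin k → ℕ, Function.Injective x → (∀ i j, x i ≡ x j [MOD G]) →
            (∀ i, |(x i : ℝ) - α * v l| ≤ (v l) ^ θ) → Good a f m D d x) ∧
      (∀ᵐ α : ℝ, 0 < α → ∀ k D d : ℕ, ∃ θ : ℝ, 0 < θ ∧
          ∃ l₀ : ℕ, ∀ l : ℕ, l₀ ≤ l → ∀ x : Fin k → ℕ, Function.Injective x → (∀ i j, x i ≡ x j [MOD G]) →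
            (∀ i, |(x i : ℝ) - α * 2 ^ l| ≤ (2 : ℝ) ^ (θ * l)) → Good a f m D d x) := by
  obtain ⟨G0, hG0⟩ := windows hn a f hf m h0
  refine ⟨G0 + 1, by omega, fun G hG => ?_⟩
  have h1 : ∀ k D d : ℕ, ∃ c : ℝ, 0 < c ∧ c < 1 ∧
        ∀ (v : ℕ → ℝ) (τ θ : ℝ), (∀ l, 1 ≤ v l) → 0 ≤ τ → ConvergenceExponentLe v τ → θ ≤ c →
        ∃ Y : Set ℝ, dimH Y ≤ ENNReal.ofReal ((1 - c + τ) / (1 - θ)) ∧ ∀ α : ℝ, 0 < α → α ∉ Y →
          ∃ l₀ : ℕ, ∀ l : ℕ, l₀ ≤ l → ∀ x : Fin k → ℕ, Function.Injective x → (∀ i j, x i ≡ x j [MOD G]) →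
            (∀ i, |(x i : ℝ) - α * v l| ≤ (v l) ^ θ) → Good a f m D d x := by
    intro k D d
    obtain ⟨c, q₀, hc0, hc1, h⟩ := hG0 G (by omega) (by omega) k D d
    refine ⟨c / 2, by positivity, by linarith, fun v τ θ hv hτ hvτ hθ => ?_⟩
    choose! S hS using h
    obtain ⟨Y, hY, hY2⟩ := Pool.Agent.V11286.NE.no_exc (G * (n * (n + 1) + 2)) (c := c) (b := c / 2) (by positivity)
      (by linarith) hc1 (fun q => if q₀ ≤ q then S q else ∅) (fun q => by
        by_cases hq : q₀ ≤ q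
        · simp only [hq, if_true]
          exact (hS q hq).1
        · simp [hq]) hv hτ hvτ hθ
    refine ⟨Y, hY, fun α hα hαY => ?_⟩
    obtain ⟨l₀, hl₀⟩ := hY2 α hα hαY q₀
    refine ⟨l₀, fun l hl x hx hmod hxi => ?_⟩
    obtain ⟨q, hq, hqt⟩ := hl₀ l hl
    refine (hS q hq).2 x hx hmod fun i => ?_
    obtain ⟨a1, a2, a3⟩ := hqt (x i) (hxi i)
    rw [if_pos hq] at a3
    exact ⟨a1, a2, a3⟩
  have h2 : ∀ v : ℕ → ℝ, (∀ l, 1 ≤ v l) → ConvergenceExponentLe v 0 → ∀ᵐ α : ℝ, 0 < α → ∀ k D d : ℕ, ∃ θ : ℝ, 0 < θ ∧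
          ∃ l₀ : ℕ, ∀ l : ℕ, l₀ ≤ l → ∀ x : Fin k → ℕ, Function.Injective x → (∀ i j, x i ≡ x j [MOD G]) →
            (∀ i, |(x i : ℝ) - α * v l| ≤ (v l) ^ θ) → Good a f m D d x := by
    intro v hv hv0
    have h5 : ∀ᵐ α : ℝ, ∀ k D d : ℕ, 0 < α → ∃ θ : ℝ, 0 < θ ∧
          ∃ l₀ : ℕ, ∀ l : ℕ, l₀ ≤ l → ∀ x : Fin k → ℕ, Function.Injective x → (∀ i j, x i ≡ x j [MOD G]) →
            (∀ i, |(x i : ℝ) - α * v l| ≤ (v l) ^ θ) → Good a f m D d x := by
      rw [ae_all_iff]
      intro k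
      rw [ae_all_iff]
      intro D
      rw [ae_all_iff]
      intro d
      obtain ⟨c, hc0, hc1, h4⟩ := h1 k D d
      obtain ⟨Y, hY, hY2⟩ := h4 v 0 (c / 2) hv le_rfl hv0 (by linarith)
      have hY0 : volume Y = 0 := Pool.Agent.V11286.NE.vol_zero (Pool.Agent.V11286.NE.ratio_lt hc0 hc1) hY
      have hae : ∀ᵐ α : ℝ, α ∉ Y := measure_eq_zero_iff_ae_notMem.1 hY0
      filter_upwards [hae] with α hα hα0
      exact ⟨c / 2, by positivity, hY2 α hα0 hα⟩
    filter_upwards [h5] with α h6 hα k D d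
    exact h6 k D d hα
  refine ⟨h1, h2, ?_⟩
  have h3 := h2 (fun l => (2 : ℝ) ^ l) (fun l => one_le_pow₀ (by norm_num)) Pool.Agent.V11286.NE.expLe_two
  filter_upwards [h3] with α h4 hα k D d
  obtain ⟨θ, hθ, l₀, h5⟩ := h4 hα k D d
  refine ⟨θ, hθ, l₀, fun l hl x hx hmod hxi => h5 l hl x hx hmod fun i => ?_⟩
  refine (hxi i).trans (le_of_eq ?_)
  show (2 : ℝ) ^ (θ * l) = ((2 : ℝ) ^ l) ^ θ
  rw [← Real.rpow_natCast, ← Real.rpow_mul (by norm_num), mul_comm]

end Pool.Agent.Results.MP_77d3f5_ag.SequencesWithoutExceptions
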